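import Pool.Agent.K4H47.TR.Final

/-!
# Generic rank one perturbations of arbitrary operators have hyperinvariant half-spaces (MP_f981b0_an)

Let `X` be an infinite-dimensional complex Banach space (reflexive or not, separable or not) and `T` an
arbitrary bounded operator on `X` which is not algebraic. Then for all pairs `(u, v)` in `X × X*` outside a
set of first category the operator `T + t (u ⊗ v)`, `x ↦ T x + t v(x) u`, has a hyperinvariant half-space
for ALL complex `t ≠ 0` with at most one exception, which is not `t = 1`. (A half-space is a closed subspace
of infinite dimension and of infinite codimension; hyperinvariant means invariant under all operators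
commuting with the given one.) For algebraic `T` these operators still have invariant half-spaces.

Known: Tcaciuc (The invariant subspace problem for rank-one perturbations, Duke Math. J. 2019) proved that
for every `T` SOME operator `F` of rank at most one (of arbitrarily small norm) is such that `T + F` has an
invariant half-space (for quasinilpotent `T` he used Picard's theorem); before, Popov and Tcaciuc had this
for reflexive spaces, and Androulakis, Popov, Tcaciuc and Troitsky, Marcoux, Popov and Radjavi, Sirotkin and
Wallis for classes of operators. Here the perturbation is typical, all its multiples but one are covered,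
and the half-space is invariant under the whole commutant.

Proof. For `z` off the spectrum `σ` of `T` put `R(z) = (z - T)⁻¹` and `h(z) = v(R(z) u)`. The solutions of
`h(z) = 1 / t` are eigenvalues of `T + t (u ⊗ v)`, with the eigenvectors `R(z) u` and the eigenfunctionals
`v ∘ R(z)` of the adjoint; if there are infinitely many, `z_0, z_1, …`, then the closed span of the
eigenvectors of `z_0, z_2, …` is a hyperinvariant half-space. So let `λ` be a boundary point of `σ`; we
show that `λ` is a pole of the resolvent, if for all `(u, v)` in some ball two values of a fixed compact set,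
a fixed distance apart, are not taken by `h` in a fixed disc about `λ` (`pole_of_bad`); if all boundary
points are poles, `T` is algebraic by Liouville's theorem; the theorem follows from Baire's theorem, since
the set of the pairs of this kind is closed by the maximum principle.

(a) If `h(z) = 0` has no solution near `λ` for all `(u, v)` in a ball, then, for fixed `z`, the bi-affine
function `(s, t) ↦ (v + t b)(R(z) (u + s a))` has no zero in a bidisc, whence `‖R(z)‖ ≤ C |h(z)|`. As
`‖R(z)‖ ≥ 1 / |z - w|` for `w` in `σ`, the function `h⁻²`, extended by zero to `σ`, is complex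
differentiable at ALL points near `λ`. So it is analytic, its zeros are isolated, and `λ` is a pole.

(b) Let `z₁` be near `λ` and `d` its distance to `σ`. By Schottky's theorem, `|h| ≤ S(M)` in the disc of
radius `d / 2` about `z₁`, if `|h(z₁)| ≤ M`, for all pairs in the ball, with `S` not depending on `z₁`. If
`h(z₁) = 0` for one pair, then the maximum principle gives `‖R(z₁)‖ ≤ G / d` (`Ctx.growth`): `R(z) u` is
`φ(z) R(z₁) u` up to `O(1)`, since functionals vanishing at `R(z₁) u` may be added to `v`, and the equation
`(z - T) R(z) u = u` bounds `‖R(z₁) u‖`; then one varies `u` and `v`.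

(c) If `λ` is not isolated in `σ`, there are boundary points `λ₁` nearest to `z₁` and `λ₂` at distance
between `9 d` and `θ`. Let `x₁`, `x₂` be unit vectors with `R(z) x_i` very near to `x_i / (z - λ_i)` at
`z = z₁` and at `z = z₂ = z₁ + τ (z₁ - λ₁)`. Adding small multiples of `x₁` and `x₂` to `u`, and a small
functional to `v`, one keeps `h(z₁)` bounded but gets `h(z₂) = Y ((z₁ - λ₁) / (z₂ - λ₁) - (z₁ - λ₂) / (z₂ - λ₂))`
up to `O(1)`, with `Y` as large as one likes, against Schottky's theorem, if `‖R(z₁) u‖` is bounded; if it
is large, the same is done with `R(z₁) u` and one of the `x_i` (`Ctx.caseB1`, `Ctx.caseB2`). So `h` has no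
zeros near `λ` for all pairs in a smaller ball, and (a) applies.

(d) If `λ` is isolated in `σ`, then either (a) applies, or there are zeros on circles about `λ` with
arbitrarily small radii `d`, on which `‖R‖ ≤ C / d ^ 2` by (b) and a chain of discs, and by the maximum
principle on annuli `λ` is a pole.

(e) If `T` is algebraic it has an infinite-dimensional eigenspace; every subspace of its intersection with
the kernel of `v` is invariant.
-/

set_option autoImplicit false

open Filter

namespace Pool.Agent.Results.MP_f981b0_an.GenericRankOne

section Defs

variable {X : Type} [NormedAddCommGroup X] [NormedSpace ℂ X]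

/-- `V` is a half-space: closed, of infinite dimension and of infinite codimension. -/
def IsHalfSpace (V : Submodule ℂ X) : Prop :=
  IsClosed (V : Set X) ∧ ¬ FiniteDimensional ℂ V ∧ ¬ FiniteDimensional ℂ (X ⧸ V)

/-- `S` has an invariant half-space. -/
def HasInvariantHalfSpace (S : X →L[ℂ] X) : Prop :=
  ∃ V : Submodule ℂ X, IsHalfSpace V ∧ ∀ x ∈ V, S x ∈ V

/-- `S` has a half-space which is invariant under every bounded operator commuting with `S`. -/
def HasHyperinvariantHalfSpace (S : X →L[ℂ] X) : Prop :=
  ∃ V : Submodule ℂ X, IsHalfSpace V ∧ ∀ Q : X →L[ℂ] X, Q * S = S * Q → ∀ x ∈ V, Q x ∈ V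

/-- `T` is algebraic: `P(T) = 0` for some nonzero polynomial `P`. -/
def IsAlgebraicOperator (T : X →L[ℂ] X) : Prop :=
  ∃ P : Polynomial ℂ, P ≠ 0 ∧ Polynomial.aeval T P = 0

/-- The operator `u ⊗ v`, `x ↦ v(x) u`. -/
noncomputable def rankOne (u : X) (v : X →L[ℂ] ℂ) : X →L[ℂ] X := v.smulRight u

end Defs

/-- **Generic rank one perturbations have hyperinvariant half-spaces.** Let `T` be any bounded operator on
an infinite-dimensional complex Banach space `X`. For all `(u, v)` in `X × X*` outside a set of first
category there is a number `t₀ ≠ 1` such that for all complex `t ∉ {0, t₀}` the operator `T + t (u ⊗ v)` has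
an invariant half-space and, if `T` is not algebraic, a hyperinvariant half-space. -/
theorem result (X : Type) [NormedAddCommGroup X] [NormedSpace ℂ X] [CompleteSpace X]
    (hX : ¬ FiniteDimensional ℂ X) (T : X →L[ℂ] X) :
    ∀ᶠ p in residual (X × (X →L[ℂ] ℂ)), ∃ t₀ : ℂ, t₀ ≠ 1 ∧ ∀ t : ℂ, t ≠ 0 → t ≠ t₀ →
      HasInvariantHalfSpace (T + t • rankOne p.1 p.2) ∧
      (¬ IsAlgebraicOperator T → HasHyperinvariantHalfSpace (T + t • rankOne p.1 p.2)) := by
  have hnt : Nontrivial X := by
    by_contra h
    rw [not_nontrivial_iff_subsingleton] at h
    exact hX inferInstance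
  by_cases hT : IsAlgebraicOperator T
  · refine Eventually.of_forall fun p => ⟨0, zero_ne_one, fun t _ _ => ⟨?_, fun h => absurd hT h⟩⟩
    have h := Pool.Agent.K4H47.TR.algebraic_case hX hT (t • p.1, p.2)
    rw [Pool.Agent.K4H47.TR.F1_smul] at h
    exact h
  · filter_upwards [Pool.Agent.K4H47.TR.picard hT] with p hp
    obtain ⟨t₀, h1, h2⟩ := hp
    exact ⟨t₀, h1, fun t ht htt =>
      ⟨Pool.Agent.K4H47.TR.IH_of_HH (h2 t ht htt), fun _ => h2 t ht htt⟩⟩

end Pool.Agent.Results.MP_f981b0_an.GenericRankOne
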