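import Pool.Agent.K4H47.HS.Svd2
import Pool.Agent.K4H47.HS.Hyp

/-!
# Hilbert-Schmidt perturbations of normal operators, for almost every coupling constant

Let `N` be a normal operator on a separable complex Hilbert space and `K` a Hilbert-Schmidt operator.
No condition is put on `N` (its spectrum may have interior, its spectral measure may be anything)
and none on `K`. For every `t` outside a set which is null for all atomless measures with bounded
logarithmic potential, in particular for almost every complex `t` and for almost every real `t`, the
operator `N + t K` is a multiple of the identity or has a nontrivial closed hyperinvariant subspace.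
Moreover for these `t` every point `c` of the spectrum carries, for every `ε > 0`, a nonzero vector
`x` with `‖(T - c)^n x‖ ≤ C ε ^ n` for all `n` (its local spectrum is in the disc of radius `ε` about
`c`), and the same holds for the adjoint.

The starting result `NormalPlusTraceClass` has this for trace class `K` only. There the matrices
`F(z)` (see below) are of trace class for almost every `z`, the Fredholm determinant and Weyl's
inequality apply, and the vectors are integrals over single circles. All three break down here: for
a Hilbert-Schmidt operator `K` the matrix `F(z)` is in general in no better class than `S₁ + S₄`, the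
series for the determinant diverges, and the integral of the local resolvent over a circle need not
exist for any radius.

Proof. `N` is the multiplication by `φ` on `L²(μ)`, and by the Schmidt decomposition `K` is the norm
limit of `∑ ⟪v j, f⟫ u j`, where the `u j` with singular value of size `θ = 16⁻ᵏ` satisfy Bessel's
inequality with constant `L θ`. Put `F i j (z) = ∫ conj (v i) u j / (z - φ)`. Cut the kernel
`1 / |z - φ|` at the distance `θ` which belongs to `j`. The near part contributes to the diagonal of
`F(z)`, in all pairs of orthonormal bases, a finite sum, bounded by a potential whose area integral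
is at most `C ∑ θ²`, the far part a finite sum of fourth powers, bounded by a potential with the same
property (geometric weights between the levels, and Bessel's inequality three times on each level).
A lemma on determinants (`|det M|² ≤ det A det B` if `|⟪x, M y⟫|² ≤ ⟪x, A x⟫ ⟪y, B y⟫`) gives from
this alone bounds for `det (1 - (t F)⁴)` and for `(1 - t F)⁻¹` times this determinant, uniform in the
size. The negative part of `log |det (1 - (t F(z))⁴)|` is integrable in `(z, t)` for area measure in
`z` and every measure with bounded logarithmic potential in `t`. Outer functions on circles and the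
Hahn-Banach theorem give bounded functions `h` on a disc, orthogonal to `(z - p)^(a + 1)` for all
`a ≥ 0` and with integral bounded from below, which are as small as needed where the determinant is
small. The area integrals over the disc of `(z - p)^(a + 1) h(z)` times the formal local resolvent
are vectors `X a` with `(T - p) X a = X (a + 1)` and `‖X a‖ ≤ C r^a` (the norm is bounded by duality).
They vanish only if the initial vector is in the range of `T - p`. If the spectrum has two points,
such vectors for `T` and `T†` at different points annihilate each other across the commutant. If it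
has only one point `p`, then `T - p` is compact (library), and Lomonosov's theorem applies.

The spectral theorem, the outer functions on circles, the weak limits, the annihilation lemma, the
choice of couplings and the one point case are taken from the starting library
(`Pool.Agent.Y25.NK`, `Y681.NK`, `Y454.NK`, `Y529.NK`, `Y487.NK`, `Pool.Agent.W806.HI`,
`Pool.Agent.W577.HI`).
-/

set_option autoImplicit false

open MeasureTheory Metric
open scoped InnerProductSpace ENNReal NNReal

namespace Pool.Agent.Results.MP_f981b0_an.NormalPlusHilbertSchmidt

section Defs

variable {H : Type} [NormedAddCommGroup H] [InnerProductSpace ℂ H]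

/-- `T` is a multiple of the identity. -/
def IsScalar (T : H →L[ℂ] H) : Prop := ∃ c : ℂ, T = c • (1 : H →L[ℂ] H)

/-- `T` has a closed subspace, neither `{0}` nor the whole space, which is invariant under every
bounded operator commuting with `T`. -/
def HasHyperinvariant (T : H →L[ℂ] H) : Prop :=
  ∃ V : Submodule ℂ H, IsClosed (V : Set H) ∧ V ≠ ⊥ ∧ V ≠ ⊤ ∧
    ∀ Q : H →L[ℂ] H, Q * T = T * Q → ∀ x ∈ V, Q x ∈ V

/-- For every point `c` of the spectrum and every `ε > 0` there is a nonzero vector `x` with
`‖(T - c)^n x‖ ≤ C ε ^ n` for all `n`. -/
def SmallLocalSpectra (T : H →L[ℂ] H) : Prop :=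
  ∀ c ∈ spectrum ℂ T, ∀ ε : ℝ, 0 < ε → ∃ (x : H) (C : ℝ), x ≠ 0 ∧
    ∀ n : ℕ, ‖((T - c • (1 : H →L[ℂ] H)) ^ n) x‖ ≤ C * ε ^ n

/-- The conclusion of the theorem for one operator. -/
def Good [CompleteSpace H] (T : H →L[ℂ] H) : Prop :=
  (IsScalar T ∨ HasHyperinvariant T) ∧ SmallLocalSpectra T ∧
    SmallLocalSpectra (ContinuousLinearMap.adjoint T)

/-- `K` is a Hilbert-Schmidt operator: `∑ ‖K (b i)‖² < ∞` for some Hilbert basis `b`. -/
def HilbertSchmidt (K : H →L[ℂ] H) : Prop :=
  ∃ (ι : Type) (b : HilbertBasis ι ℂ H), Summable fun i => ‖K (b i)‖ ^ 2

end Defs

/-- The measure `m` has no atoms, and on every disc `|t| < R` it is finite and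
`∫ log⁺ (1 / |t - s|) dm(t)` is bounded in `s ∈ ℂ`. -/
def BoundedPotential (m : Measure ℂ) : Prop :=
  (∀ s : ℂ, m {s} = 0) ∧
  ∀ R : ℝ, m (ball (0:ℂ) R) ≠ ⊤ ∧ ∃ C : ℝ≥0, ∀ s : ℂ,
    ∫⁻ t in ball (0:ℂ) R, ENNReal.ofReal (Real.posLog ‖t - s‖⁻¹) ∂m ≤ C

/-- **Generic Hilbert-Schmidt perturbations of normal operators have hyperinvariant subspaces.** Let
`N` be normal and `K` Hilbert-Schmidt on a separable Hilbert space. Then `N + t K` is good (a
multiple of the identity or with a nontrivial hyperinvariant subspace, and with small local spectra,
as its adjoint) for almost every `t` with respect to every atomless measure with bounded logarithmic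
potential, in particular for almost every complex and for almost every real `t`. -/
theorem result (H : Type) [NormedAddCommGroup H] [InnerProductSpace ℂ H] [CompleteSpace H]
    [TopologicalSpace.SeparableSpace H] (N K : H →L[ℂ] H) (hN : IsStarNormal N)
    (hK : HilbertSchmidt K) :
    (∀ (m : Measure ℂ) [SFinite m], BoundedPotential m →
      ∀ᵐ t ∂m, Good (N + t • K)) ∧
    (∀ᵐ t : ℂ, Good (N + t • K)) ∧
    (∀ᵐ t : ℝ, Good (N + (t : ℂ) • K)) := by
  obtain ⟨ι, b, hb⟩ := hK
  obtain ⟨u, v, l, L, hR⟩ := Pool.Agent.K4H47.HS.exists_hsr K b hb
  have main : ∀ (m : Measure ℂ) [SFinite m], Pool.Agent.Y283.NK.LogBd m →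
      ∀ᵐ t ∂m, Good (N + t • K) := by
    intro m _ hm
    filter_upwards [Pool.Agent.K4H47.HS.main_hsr H N K hN u v l L hR m hm] with t ht
    exact ht
  refine ⟨?_, ?_, ?_⟩
  · intro m _ hm
    refine main m fun R => ?_
    obtain ⟨h0, hm⟩ := hm
    obtain ⟨h1, C, hC⟩ := hm R
    refine ⟨C + (m (ball (0:ℂ) R)).toNNReal, ?_, fun s => ?_⟩
    · rw [ENNReal.coe_add, ENNReal.coe_toNNReal h1]
      exact le_add_self
    · calc ∫⁻ t in ball (0:ℂ) R, Pool.Agent.Y283.NK.lm ‖t - s‖ ∂m
          = ∫⁻ t in ball (0:ℂ) R, ENNReal.ofReal (Real.posLog ‖t - s‖⁻¹) ∂m := by
            refine lintegral_congr_ae (ae_restrict_of_ae ?_)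
            have h2 : ∀ᵐ t ∂m, t ≠ s := by
              rw [ae_iff]
              simpa using h0 s
            filter_upwards [h2] with t ht
            unfold Pool.Agent.Y283.NK.lm
            rw [if_neg (by simpa [sub_eq_zero] using ht)]
        _ ≤ C := hC s
        _ ≤ _ := by rw [ENNReal.coe_add]; exact le_self_add
  · exact main volume Pool.Agent.Y891.NK.main_vol.1
  · have h := main (Measure.map (fun t : ℝ => (t : ℂ)) volume) Pool.Agent.Y891.NK.main_vol.2
    exact ae_of_ae_map Complex.continuous_ofReal.measurable.aemeasurable h

end Pool.Agent.Results.MP_f981b0_an.NormalPlusHilbertSchmidt
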