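import Pool.Agent.K4H43.TR.Tran

/-!
# MP_f981b0_an: typical contractions of `ℓ_p(X)`, `X` any separable reflexive space

Let `1 < p < ∞`, let `X ≠ 0` be any separable reflexive complex Banach space, let `ℓ_p(X)` be the
space of the `p`-summable sequences in `X` (again separable and reflexive), and let `E` be a space
isometric to `ℓ_p(X)`. No basis and no approximation property is assumed. Then the contractions of
`E` form a completely metrizable space for the strong* operator topology, and a typical contraction
(all contractions outside a meager set) has nontrivial closed hyperinvariant subspaces; these even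
come arbitrarily close to every vector.

Every separable reflexive space `X` is the range of a projection of norm one of `ℓ_p(X)`. If `X` is
isometric to its own `p`-sum, as are `L_p[0,1]`, `ℓ_p` and `ℓ_p(ℓ_r)`, the space `E` can be `X`
itself.

Proof (for `E = ℓ_p(X)`). For `x` in `E`, `y` in `E*`, `ρ > 0` let `G(x, y, ρ)` be the set of the
contractions `T` with `|y(S x)| ≤ ρ` for all contractions `S` commuting with `T`. One shows that near any `T` in
the interior of `G(x, y, ρ)` there is a contraction in the interior of `G(x', y', ε)`, with `x'`
and `y'` near `x` and `y` (to within `ρ^(1/p) + ε` and `ρ^(1/q) + ε`). The sets `G` are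
semicontinuous at every operator, as on a reflexive space bounded nets of operators have weak
limits; this replaces the compactness of finite-dimensional blocks in the earlier result for `ℓ_p`.

Step 1: an operator with the commutator property. Let `Q` be the projection to the first `N`
coordinates and `R` the shift by `N` coordinates. The operator
`A = (1 - 3τ) Q T Q + R (δ Q + (1 - 2τ)(1 - Q))` is near `T`, and its powers grow evenly:
`c w^n |x| ≤ |A^n x| ≤ C w^n |x|` with `w = 1 - 2τ`. Hence if `A` commutes with `D = [A, B]`, for a
bounded `B`, then from `[A^(n+1), B] = (n+1) A^n D` one gets `(n+1) c w^n |D x| ≤ K w^n |x|` and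
`D = 0`. So no finite-dimensional blocks (and no approximation property) are needed.

Step 2: a Hahn-Banach argument represents the functional `S ↦ y(S x)` on the commutant of `A`,
whose norm is at most `ρ`, up to a small error as `∑ v_b (S u_b)` with `∑ |u_b|^p ≤ ρ` and
`∑ |v_b|^q ≤ ρ`.

Step 3: `m + 2` copies of `E` in itself, the first one nearly the identity on given vectors and
functionals, carry copies of `A`; these are coupled by small weights `δ` and one weight `w`. By the
property of `A` the blocks of an operator commuting with the coupled copies are of Toeplitz form up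
to small errors, and so all such `S` satisfy `y'(S x') ≈ y(S₀₀ x) - ∑ v_b (S₀₀ u_b) ≈ 0` for the
vector `x'` with the parts `x, u_1, u_2, …` and the functional `y'` with the parts
`y, -v_1, -v_2, …` on the copies.
-/

set_option autoImplicit false
open TopologicalSpace
open scoped ENNReal

namespace Pool.Agent.Results.MP_f981b0_an.TypicalContractionsSums

/-- All contractions: the closed unit ball of the bounded operators. -/
def Contr (E : Type*) [NormedAddCommGroup E] [NormedSpace ℂ E] : Set (E →L[ℂ] E) :=
  {T | ‖T‖ ≤ 1}

/-- The strong* operator topology on the contractions: pointwise norm convergence of the operators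
and of their adjoints. -/
@[reducible] noncomputable def StrongStar (E : Type*) [NormedAddCommGroup E] [NormedSpace ℂ E] :
    TopologicalSpace (Contr E) :=
  TopologicalSpace.induced (fun T : Contr E => ((fun x : E => (T : E →L[ℂ] E) x),
    (fun y : StrongDual ℂ E => y.comp (T : E →L[ℂ] E)))) instTopologicalSpaceProd

/-- Arbitrarily close to every vector there is a vector which lies in a closed subspace, neither
`{0}` nor the whole space, which is invariant under all bounded operators commuting with `T`. -/
def DenselyHyperinvariant {E : Type*} [NormedAddCommGroup E] [NormedSpace ℂ E]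
    (T : E →L[ℂ] E) : Prop :=
  ∀ (x₀ : E) (ε : ℝ), 0 < ε → ∃ M : Submodule ℂ E, IsClosed (M : Set E) ∧ M ≠ ⊥ ∧ M ≠ ⊤ ∧
    (∀ S : E →L[ℂ] E, S * T = T * S → ∀ v ∈ M, S v ∈ M) ∧ ∃ x ∈ M, ‖x - x₀‖ < ε

/-- The contractions of `E` form a nonempty completely metrizable Baire space for the strong*
topology, and all of them outside a meager set are `DenselyHyperinvariant`. -/
def TypicallyHyperinvariant (E : Type*) [NormedAddCommGroup E] [NormedSpace ℂ E] : Prop :=
  (Contr E).Nonempty ∧ @IsCompletelyMetrizableSpace _ (StrongStar E) ∧
    @BaireSpace _ (StrongStar E) ∧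
    {T : Contr E | DenselyHyperinvariant (T : E →L[ℂ] E)} ∈ @residual _ (StrongStar E)

/-- **Typical contractions of every space `E` isometric to `ℓ_p(X)`, for any separable reflexive
space `X ≠ 0` and `1 < p < ∞`, have nontrivial closed hyperinvariant subspaces.** -/
theorem result (X : Type*) [NormedAddCommGroup X] [NormedSpace ℂ X] [CompleteSpace X]
    [SeparableSpace X] [Nontrivial X]
    (hX : Function.Surjective (NormedSpace.inclusionInDoubleDual ℂ X))
    (p : ℝ≥0∞) [Fact (1 ≤ p)] (hp : 1 < p) (hp' : p ≠ ∞)
    (E : Type*) [NormedAddCommGroup E] [NormedSpace ℂ E] (e : E ≃ₗᵢ[ℂ] lp (fun _ : ℕ => X) p) :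
    TypicallyHyperinvariant E := by
  have hR : Pool.Agent.K4H43.TR.Refl X := by
    intro φ
    obtain ⟨x, hx⟩ := hX φ
    refine ⟨x, fun y => ?_⟩
    rw [← hx]
    simp
  obtain ⟨h1, h2, h3⟩ := Pool.Agent.K4H43.TR.typ_iso hR hp hp' e (Contr E) rfl
  refine ⟨⟨0, ?_⟩, h1, h2, Filter.mem_of_superset h3 fun T hT => ?_⟩
  · show ‖(0 : E →L[ℂ] E)‖ ≤ 1
    rw [norm_zero]
    exact zero_le_one
  · exact Pool.Agent.Y280.hyp_of_goodH hT

end Pool.Agent.Results.MP_f981b0_an.TypicalContractionsSums
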