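import Pool.Agent.K4H63.TY.PosFin

/-!
# Typical positive contractions have hyperinvariant subspaces

Let `1 < p < ∞`. In the Polish space of all positive contractions of `ℓ_p` (all entries of the matrix are
nonnegative), with the strong* operator topology, a typical element has nontrivial closed subspaces
invariant under every bounded operator commuting with it (positive or not), and these come arbitrarily close
to every vector. Gillet asked whether typical positive contractions of `ℓ_p`, `p ≠ 1, 2`, have nontrivial
invariant subspaces at all, and proved that they do not satisfy the commutant criterion of Abramovich,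
Aliprantis and Burkinshaw and have no invariant ideals.

The theorem is proved for `ℓ_p(X)`, where `X ≠ 0` is a separable reflexive Banach space with a closed convex
cone `K` such that the identity of `X` is the limit, on vectors and on functionals, of contractive
projections `x ↦ ∑ k i (x) b i` with `b i ∈ K` and functionals `k i ≥ 0` on `K`, `k i (b j) = δ i j`. For `X = ℂ`
and the cone of the nonnegative numbers one has `ℓ_p` (`ell_p` below). Averaging projections show that
`X = L_q(μ)` and the finite-dimensional and the reflexive rearrangement invariant function and sequence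
lattices are examples; so the theorem covers positive contractions of `ℓ_p(ℓ_q)`, `ℓ_p(L_q)` and, as
`L_p(0,1)` is order isometric to `ℓ_p(L_p(0,1))`, of `L_p(0,1)`.

The proof follows `TypicalOnSums`: every positive contraction is close to a positive finite rank operator
`B`, `‖B‖ < 1`, on the first `N` summands; a small positive perturbation, diagonal in the basis `b i`, makes its
minimal polynomial separable; and the amplification `B ⊗ 1 + 1 ⊗ J` is positive, as the weights of the
shift `J` are. The vectors and functionals which are added in the step need not be positive.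
-/

set_option autoImplicit false
open TopologicalSpace
open scoped ENNReal ComplexOrder

namespace Pool.Agent.Results.MP_f981b0_an.TypicalPositive

section Defs

variable {E : Type} [NormedAddCommGroup E] [NormedSpace ℂ E]

/-- The strong* operator topology on a set of operators: pointwise convergence, in norm, of the operators
and of their adjoints `y ↦ y ∘ T`. -/
@[reducible] noncomputable def SOTStar (C : Set (E →L[ℂ] E)) : TopologicalSpace C :=
  TopologicalSpace.induced (fun T : C => ((fun x : E => (T : E →L[ℂ] E) x),
    (fun y : StrongDual ℂ E => y.comp (T : E →L[ℂ] E)))) instTopologicalSpaceProd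

/-- Arbitrarily close to every vector there is a vector which lies in a closed subspace, neither
`{0}` nor the whole space, which is invariant under all bounded operators commuting with `T`. -/
def DenselyHyperinvariant (T : E →L[ℂ] E) : Prop :=
  ∀ (x₀ : E) (ε : ℝ), 0 < ε → ∃ M : Submodule ℂ E, IsClosed (M : Set E) ∧ M ≠ ⊥ ∧ M ≠ ⊤ ∧
    (∀ S : E →L[ℂ] E, S * T = T * S → ∀ v ∈ M, S v ∈ M) ∧ ∃ x ∈ M, ‖x - x₀‖ < ε

/-- `C` with the strong* operator topology is a completely metrizable Baire space, and its typical element
(all elements outside a meager set) has the property `Q`. -/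
def Typically (C : Set (E →L[ℂ] E)) (Q : (E →L[ℂ] E) → Prop) : Prop :=
  @IsCompletelyMetrizableSpace C (SOTStar C) ∧ @BaireSpace C (SOTStar C) ∧
    {T : C | Q (T : E →L[ℂ] E)} ∈ @residual C (SOTStar C)

/-- `E` is reflexive: the canonical map into the second dual is onto. -/
def Reflexive (E : Type) [NormedAddCommGroup E] [NormedSpace ℂ E] : Prop :=
  Function.Surjective (NormedSpace.inclusionInDoubleDual ℂ E)

/-- `K` is a closed convex cone. -/
structure ClosedCone {X : Type} [NormedAddCommGroup X] [NormedSpace ℂ X] (K : Set X) : Prop where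
  zero : (0 : X) ∈ K
  add : ∀ x ∈ K, ∀ y ∈ K, x + y ∈ K
  smul : ∀ t : ℝ, 0 ≤ t → ∀ x ∈ K, (t : ℂ) • x ∈ K
  closed : IsClosed K

/-- The operator `x ↦ ∑ k i (x) b i`. -/
noncomputable def sumOp {X : Type} [NormedAddCommGroup X] [NormedSpace ℂ X] {n : ℕ} (b : Fin n → X)
    (k : Fin n → StrongDual ℂ X) : X →L[ℂ] X :=
  ∑ i, (k i).smulRight (b i)

/-- The vectors `b i` are in `K`, the functionals `k i` are nonnegative on `K`, `k i (b j) = δ i j`, and the
projection `x ↦ ∑ k i (x) b i` has norm at most one. -/
structure PositiveSystem {X : Type} [NormedAddCommGroup X] [NormedSpace ℂ X] (K : Set X) {n : ℕ}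
    (b : Fin n → X) (k : Fin n → StrongDual ℂ X) : Prop where
  vectors : ∀ i, b i ∈ K
  functionals : ∀ i, ∀ x ∈ K, ∃ t : ℝ, 0 ≤ t ∧ k i x = t
  biorthogonal : ∀ i j, k i (b j) = if i = j then 1 else 0
  contractive : ‖sumOp b k‖ ≤ 1

/-- For all finite sets of vectors and functionals and `ε > 0` there is a positive system whose projection
`R` moves these vectors and `y ↦ y ∘ R` these functionals by at most `ε`. -/
def PositiveApproximation {X : Type} [NormedAddCommGroup X] [NormedSpace ℂ X] (K : Set X) : Prop :=
  ∀ (A : Finset X) (A' : Finset (StrongDual ℂ X)) (ε : ℝ), 0 < ε →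
    ∃ (n : ℕ) (b : Fin n → X) (k : Fin n → StrongDual ℂ X), PositiveSystem K b k ∧
      (∀ x ∈ A, ‖sumOp b k x - x‖ ≤ ε) ∧ ∀ y ∈ A', ‖y.comp (sumOp b k) - y‖ ≤ ε

/-- The coordinates `c x i`, `i ∈ ℕ`, of the vectors `x` being given, these are the contractions which map the
vectors with coordinates in `K` to such vectors. -/
def PosContr {X : Type} (c : E → ℕ → X) (K : Set X) : Set (E →L[ℂ] E) :=
  {T | ‖T‖ ≤ 1 ∧ ∀ x, (∀ i, c x i ∈ K) → ∀ i, c (T x) i ∈ K}

/-- The coordinates of the elements of `ℓ_p(X)`. -/
def coord (p : ℝ≥0∞) (X : Type) [NormedAddCommGroup X] (x : lp (fun _ : ℕ => X) p) (i : ℕ) : X :=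
  x i

end Defs

lemma sumOp_apply {X : Type} [NormedAddCommGroup X] [NormedSpace ℂ X] {n : ℕ} (b : Fin n → X)
    (k : Fin n → StrongDual ℂ X) (x : X) : sumOp b k x = ∑ i, k i x • b i := by
  unfold sumOp
  rw [_root_.sum_apply]
  rfl

lemma comp_sumOp {X : Type} [NormedAddCommGroup X] [NormedSpace ℂ X] {n : ℕ} (b : Fin n → X)
    (k : Fin n → StrongDual ℂ X) (y : StrongDual ℂ X) :
    y.comp (sumOp b k) = ∑ i, y (b i) • k i := by
  ext z
  simp only [ContinuousLinearMap.comp_apply, sumOp_apply, _root_.sum_apply, map_sum,
    map_smul, _root_.smul_apply, smul_eq_mul]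
  exact Finset.sum_congr rfl fun i _ => mul_comm _ _

lemma posApp_iff {X : Type} [NormedAddCommGroup X] [NormedSpace ℂ X] (K : Set X) :
    PositiveApproximation K ↔ Pool.Agent.K4H63.TY.PosApp K := by
  constructor
  · intro h A A' ε hε
    obtain ⟨n, b, k, hs, h1, h2⟩ := h A A' ε hε
    refine ⟨n, b, k, hs.vectors, hs.functionals, hs.biorthogonal, hs.contractive, ?_, ?_⟩
    · intro x hx
      rw [← sumOp_apply]
      exact h1 x hx
    · intro y hy
      rw [← comp_sumOp]
      exact h2 y hy
  · intro h A A' ε hε
    obtain ⟨n, b, k, h1, h2, h3, h4, h5, h6⟩ := h A A' ε hε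
    refine ⟨n, b, k, ⟨h1, h2, h3, h4⟩, ?_, ?_⟩
    · intro x hx
      rw [sumOp_apply]
      exact h5 x hx
    · intro y hy
      rw [comp_sumOp]
      exact h6 y hy

/-- **Typical positive contractions of `ℓ_p(X)` have hyperinvariant subspaces.** Let `1 < p < ∞`, and let
`X ≠ 0` be separable and reflexive, with a closed convex cone `K` with positive approximation. The positive
contractions of `ℓ_p(X)` with the strong* operator topology form a completely metrizable Baire space, and
its typical element has nontrivial closed hyperinvariant subspaces arbitrarily close to every vector. -/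
theorem result (p : ℝ≥0∞) [Fact (1 ≤ p)] (hp1 : 1 < p) (hp : p ≠ ∞) (X : Type)
    [NormedAddCommGroup X] [NormedSpace ℂ X] [CompleteSpace X] [Nontrivial X] [SeparableSpace X]
    (hX : Reflexive X) (K : Set X) (hK : ClosedCone K) (hA : PositiveApproximation K) :
    Typically (PosContr (coord p X) K) DenselyHyperinvariant :=
  (Pool.Agent.K4H63.TY.typ_cone p hp1 hp X hX K ⟨hK.zero, hK.add, hK.smul, hK.closed⟩
    ((posApp_iff K).1 hA)).2

/-- The case of `ℓ_p`. -/
theorem ell_p (p : ℝ≥0∞) [Fact (1 ≤ p)] (hp1 : 1 < p) (hp : p ≠ ∞) :
    Typically (PosContr (coord p ℂ) {z : ℂ | 0 ≤ z}) DenselyHyperinvariant := by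
  obtain ⟨h1, h2, h3, h4⟩ := Pool.Agent.K4H63.TY.isCone_nonneg
  exact result p hp1 hp ℂ Pool.Agent.K4H63.TY.refl_complex _ ⟨h1, h2, h3, h4⟩
    ((posApp_iff _).2 Pool.Agent.K4H63.TY.posApp_nonneg)

end Pool.Agent.Results.MP_f981b0_an.TypicalPositive
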